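import Pool.Agent.Helper13.R6.SheetA

set_option autoImplicit false

namespace Pool.Helper13.R6

/-- nonzero integers of absolute value at most `N` -/
noncomputable def nsA (N : ℕ) : Finset ℤ := (Finset.Icc (-(N : ℤ)) N).erase 0

lemma nsA_card (N : ℕ) : (nsA N).card = 2 * N := by
  unfold nsA
  rw [Finset.card_erase_of_mem (by rw [Finset.mem_Icc]; omega), Int.card_Icc]
  omega

lemma ns_coord {d : Fin 4 → ℝ} (hd : ∀ i, 0 < d i) {v : V4} {ρ : ℝ} (h : nv d v ≤ ρ) (i : Fin 4) :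
    |(v i : ℝ)| ≤ ρ / d i := by
  have h1 : d i * |(v i : ℝ)| ≤ nv d v :=
    Finset.le_sup' (fun i => d i * |(v i : ℝ)|) (Finset.mem_univ i)
  rw [le_div_iff₀ (hd i), mul_comm]
  exact h1.trans h

lemma ns_mem {y : ℝ} {z : ℤ} (hz : z ≠ 0) (h : |(z : ℝ)| ≤ y) : z ∈ nsA ⌊y⌋₊ := by
  unfold nsA
  rw [Finset.mem_erase, Finset.mem_Icc]
  have h1 : z.natAbs ≤ ⌊y⌋₊ := by
    apply Nat.le_floor
    rw [Nat.cast_natAbs, Int.cast_abs]
    exact h
  refine ⟨hz, ?_, ?_⟩ <;> omega

lemma ns_le {y : ℝ} (hy : 0 ≤ y) : ((nsA ⌊y⌋₊).card : ℝ) ≤ 2 * y := by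
  rw [nsA_card]
  push_cast
  have := Nat.floor_le hy
  linarith

theorem st_NS : ST_NS := by
  intro d m ρ hd hprod hm hρ S hS
  obtain ⟨A, hA⟩ : ∃ A : Fin 4 → Finset ℤ, A = fun j => nsA ⌊ρ / d j⌋₊ := ⟨_, rfl⟩
  obtain ⟨a, ha⟩ : ∃ a : Fin 4 → ℝ, a = fun j => 2 * (ρ / d j) := ⟨_, rfl⟩
  have hay : ∀ j, ((A j).card : ℝ) ≤ a j := by
    intro j
    rw [hA, ha]
    exact ns_le (div_nonneg hρ.le (hd j).le)
  have ha0 : ∀ j, 0 ≤ a j := by
    intro j
    rw [ha]
    exact mul_nonneg (by norm_num) (div_nonneg hρ.le (hd j).le)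
  obtain ⟨T, hT⟩ : ∃ T : Fin 4 → Finset V4,
      T = fun i => Fintype.piFinset fun j => if j = i then {0} else A j := ⟨_, rfl⟩
  have hsub : S ⊆ Fintype.piFinset A ∪ Finset.univ.biUnion T := by
    intro v hv
    obtain ⟨h1, h2⟩ := hS v hv
    have hmem : ∀ j, v j ≠ 0 → v j ∈ A j := by
      intro j hj
      rw [hA]
      exact ns_mem hj (ns_coord hd h2 j)
    rw [Finset.mem_union]
    by_cases h3 : ∀ j, v j ≠ 0
    · left
      rw [Fintype.mem_piFinset]
      exact fun j => hmem j (h3 j)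
    · right
      push Not at h3
      obtain ⟨i, hi⟩ := h3
      rw [Finset.mem_biUnion]
      refine ⟨i, Finset.mem_univ _, ?_⟩
      rw [hT, Fintype.mem_piFinset]
      intro j
      by_cases hji : j = i
      · rw [if_pos hji, hji, hi]
        exact Finset.mem_singleton_self 0
      · rw [if_neg hji]
        refine hmem j ?_
        rcases h1 j i hji with h4 | h4
        · exact h4
        · exact absurd hi h4
  have hcard : (S.card : ℝ) ≤ ((Fintype.piFinset A).card : ℝ) + ∑ i, ((T i).card : ℝ) := by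
    have h1 := (Finset.card_le_card hsub).trans (Finset.card_union_le _ _)
    have h2 := Finset.card_biUnion_le (s := (Finset.univ : Finset (Fin 4))) (t := T)
    have h3 : S.card ≤ (Fintype.piFinset A).card + ∑ i, (T i).card := by omega
    exact_mod_cast h3
  have hA0 : ((Fintype.piFinset A).card : ℝ) ≤ a 0 * a 1 * a 2 * a 3 := by
    rw [Fintype.card_piFinset]
    push_cast
    calc ∏ j, ((A j).card : ℝ) ≤ ∏ j, a j :=
          Finset.prod_le_prod (fun j _ => Nat.cast_nonneg _) fun j _ => hay j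
      _ = a 0 * a 1 * a 2 * a 3 := by rw [Fin.prod_univ_four]
  have hTi : ∀ i, ((T i).card : ℝ) ≤ ∏ j, if j = i then 1 else a j := by
    intro i
    rw [hT]
    show (((Fintype.piFinset fun j => if j = i then ({0} : Finset ℤ) else A j).card : ℕ) : ℝ) ≤ _
    rw [Fintype.card_piFinset]
    push_cast
    refine Finset.prod_le_prod (fun j _ => Nat.cast_nonneg _) fun j _ => ?_
    by_cases hji : j = i
    · rw [if_pos hji, if_pos hji]
      simp
    · rw [if_neg hji, if_neg hji]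
      exact hay j
  have h0 := hd 0
  have h1 := hd 1
  have h2 := hd 2
  have h3 := hd 3
  have e0 : a 0 * a 1 * a 2 * a 3 = 16 * ρ ^ 4 := by
    rw [ha]
    show 2 * (ρ / d 0) * (2 * (ρ / d 1)) * (2 * (ρ / d 2)) * (2 * (ρ / d 3)) = _
    have : 2 * (ρ / d 0) * (2 * (ρ / d 1)) * (2 * (ρ / d 2)) * (2 * (ρ / d 3)) =
        16 * ρ ^ 4 / (d 0 * d 1 * d 2 * d 3) := by
      field_simp
      ring
    rw [this, hprod, div_one]
  have e1 : ∀ i, (∏ j, if j = i then 1 else a j) = 8 * ρ ^ 3 * d i := by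
    have hai : ∀ i, a i * d i = 2 * ρ := by
      intro i
      rw [ha]
      have := (hd i).ne'
      show 2 * (ρ / d i) * d i = _
      field_simp
    intro i
    have h4 : (∏ j, if j = i then 1 else a j) * a i = a 0 * a 1 * a 2 * a 3 := by
      rw [Fin.prod_univ_four]
      fin_cases i <;> simp <;> ring
    rw [e0] at h4
    have h5 : (∏ j, if j = i then 1 else a j) * (2 * ρ) = 16 * ρ ^ 4 * d i := by
      rw [← hai i, ← mul_assoc, h4]
    have h6 : (∏ j, if j = i then 1 else a j) * (2 * ρ) = 8 * ρ ^ 3 * d i * (2 * ρ) := by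
      rw [h5]
      ring
    exact mul_right_cancel₀ (by positivity) h6
  have hsum : ∑ i, ((T i).card : ℝ) ≤ 32 * ρ ^ 3 * m := by
    calc ∑ i, ((T i).card : ℝ) ≤ ∑ i : Fin 4, 8 * ρ ^ 3 * m := by
          refine Finset.sum_le_sum fun i _ => (hTi i).trans ?_
          rw [e1 i]
          exact mul_le_mul_of_nonneg_left (hm i) (by positivity)
      _ = 32 * ρ ^ 3 * m := by
          rw [Finset.sum_const, Finset.card_univ, Fintype.card_fin]
          simp only [nsmul_eq_mul]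
          push_cast
          ring
  rw [e0] at hA0
  have hρ4 : 0 < ρ ^ 4 := by positivity
  calc (S.card : ℝ) ≤ 16 * ρ ^ 4 + 32 * ρ ^ 3 * m := by linarith
    _ ≤ 32 * ρ ^ 3 * (ρ + m) := by nlinarith

end Pool.Helper13.R6
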