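import Pool.Agent.Helper67.R6.Fam

set_option autoImplicit false

namespace Pool.Helper67.R6

abbrev TSvt : Type := (ℕ × ℕ) × (Fin 6 → ℕ)

open Classical in
/-- counting with two coordinates determined by the others -/
theorem svt_fib {F β : Type} (S : Finset TSvt) (f : TSvt → β) (B : Finset β)
    (c1 c2 : TSvt → ℕ) (v1 v2 : ℕ → F) (m h : ℕ) (hB : B.card ≤ m ^ 6)
    (hf : ∀ T ∈ S, f T ∈ B) (hc : ∀ T ∈ S, c1 T < m ∧ c2 T < m)
    (hinj : ∀ T ∈ S, ∀ T' ∈ S, f T = f T' → c1 T = c1 T' → c2 T = c2 T' → T = T')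
    (hv : ∀ T ∈ S, ∀ T' ∈ S, f T = f T' → v1 (c1 T) = v1 (c1 T') ∧ v2 (c2 T) = v2 (c2 T'))
    (h1 : ∀ r, ((Finset.range m).filter (fun t => v1 t = r)).card ≤ h)
    (h2 : ∀ r, ((Finset.range m).filter (fun t => v2 t = r)).card ≤ h) :
    S.card ≤ m ^ 6 * h ^ 2 := by
  have key := Finset.card_le_mul_card_image_of_maps_to hf (h ^ 2) (fun b hb => by
    by_cases hne : ∃ T0 ∈ S, f T0 = b
    · obtain ⟨T0, hT0, hb0⟩ := hne
      have hcard : (S.filter (fun T => f T = b)).card ≤
          (((Finset.range m).filter (fun t => v1 t = v1 (c1 T0))) ×ˢ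
            ((Finset.range m).filter (fun t => v2 t = v2 (c2 T0)))).card := by
        apply Finset.card_le_card_of_injOn (fun T => (c1 T, c2 T))
        · intro T hT
          have hT' := Finset.mem_filter.1 (Finset.mem_coe.1 hT)
          have hvv := hv T hT'.1 T0 hT0 (by rw [hT'.2, hb0])
          have hcc := hc T hT'.1
          exact Finset.mem_coe.2 (Finset.mem_product.2
            ⟨Finset.mem_filter.2 ⟨Finset.mem_range.2 hcc.1, hvv.1⟩,
              Finset.mem_filter.2 ⟨Finset.mem_range.2 hcc.2, hvv.2⟩⟩)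
        · intro T hT T' hT' heq
          have hT1 := Finset.mem_filter.1 (Finset.mem_coe.1 hT)
          have hT2 := Finset.mem_filter.1 (Finset.mem_coe.1 hT')
          have heq' := Prod.mk.inj heq
          exact hinj T hT1.1 T' hT2.1 (by rw [hT1.2, hT2.2]) heq'.1 heq'.2
      refine hcard.trans ?_
      rw [Finset.card_product, sq]
      exact Nat.mul_le_mul (h1 _) (h2 _)
    · have : S.filter (fun T => f T = b) = ∅ := by
        apply Finset.filter_eq_empty_iff.2
        intro T hT hTb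
        exact hne ⟨T, hT, hTb⟩
      rw [this]
      simp)
  calc S.card ≤ h ^ 2 * B.card := key
    _ ≤ h ^ 2 * m ^ 6 := Nat.mul_le_mul_left _ hB
    _ = m ^ 6 * h ^ 2 := mul_comm _ _

theorem svt_card1 (m : ℕ) (b : Fin 6) :
    (Fintype.piFinset (fun k : Fin 6 => if k = b then ({0} : Finset ℕ) else Finset.range m)).card =
      m ^ 5 := by
  rw [Fintype.card_piFinset]
  have : ∀ k : Fin 6, (if k = b then ({0} : Finset ℕ) else Finset.range m).card =
      if k = b then 1 else m := by
    intro k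
    by_cases hk : k = b <;> simp [hk]
  simp only [this]
  rw [Finset.prod_ite]
  have h2 : ∀ b : Fin 6, (Finset.univ.filter (fun k : Fin 6 => ¬ k = b)).card = 5 := by decide
  simp [h2 b]

theorem svt_card2 (m : ℕ) (a b : Fin 6) (hab : a ≠ b) :
    (Fintype.piFinset (fun k : Fin 6 => if k = a ∨ k = b then ({0} : Finset ℕ)
      else Finset.range m)).card = m ^ 4 := by
  rw [Fintype.card_piFinset]
  have : ∀ k : Fin 6, (if k = a ∨ k = b then ({0} : Finset ℕ) else Finset.range m).card =
      if k = a ∨ k = b then 1 else m := by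
    intro k
    by_cases hk : k = a ∨ k = b
    · rw [if_pos hk, if_pos hk]; rfl
    · rw [if_neg hk, if_neg hk]; exact Finset.card_range m
  simp only [this]
  rw [Finset.prod_ite, Finset.prod_const_one, one_mul, Finset.prod_const]
  have h2 : ∀ a b : Fin 6, a ≠ b →
      (Finset.univ.filter (fun k : Fin 6 => ¬ (k = a ∨ k = b))).card = 4 := by decide
  rw [h2 a b hab]

theorem svt_mem {m : ℕ} {T : TSvt} (hT : T ∈ Box m) :
    T.1.1 < m ∧ T.1.2 < m ∧ ∀ k, T.2 k < m := by
  have h := Finset.mem_product.1 hT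
  have h1 := Finset.mem_product.1 h.1
  have h2 := Fintype.mem_piFinset.1 h.2
  exact ⟨Finset.mem_range.1 h1.1, Finset.mem_range.1 h1.2, fun k => Finset.mem_range.1 (h2 k)⟩

theorem svt_upd {g g' : Fin 6 → ℕ} {b : Fin 6}
    (h : Function.update g b 0 = Function.update g' b 0) : ∀ k, k ≠ b → g k = g' k := by
  intro k hk
  have := congrFun h k
  rwa [Function.update_of_ne hk, Function.update_of_ne hk] at this

open Classical in
theorem svt_core {F : Type} [Field F] (m h : ℕ) (X Y : ℕ → F) (x : Fin 6 → ℕ → F)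
    (hX : ∀ r, ((Finset.range m).filter (fun t => X t = r)).card ≤ h)
    (hY : ∀ r, ((Finset.range m).filter (fun t => Y t = r)).card ≤ h)
    (hx : ∀ i r, ((Finset.range m).filter (fun t => x i t = r)).card ≤ h)
    (a a3 b b3 : Fin 6) (haa : a ≠ a3) (hb1 : b ≠ a) (hb2 : b ≠ a3)
    (hb3 : b3 ≠ a) (hb4 : b3 ≠ a3) (hbb : b ≠ b3)
    (ca cb : F) (hca : ca ≠ 0) (hcb : cb ≠ 0) (Va Vb : (Fin 6 → F) → F) :
    ((Box m).filter (fun T : TSvt =>
      ca * (X T.1.1 * x a3 (T.2 a3) - x a (T.2 a) * Y T.1.2) = Va (fun k => x k (T.2 k)) ∧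
      cb * (X T.1.1 * x b3 (T.2 b3) - x b (T.2 b) * Y T.1.2) = Vb (fun k => x k (T.2 k)))).card ≤
      4 * m ^ 6 * h ^ 2 := by
  set S := (Box m).filter (fun T : TSvt =>
      ca * (X T.1.1 * x a3 (T.2 a3) - x a (T.2 a) * Y T.1.2) = Va (fun k => x k (T.2 k)) ∧
      cb * (X T.1.1 * x b3 (T.2 b3) - x b (T.2 b) * Y T.1.2) = Vb (fun k => x k (T.2 k))) with hS
  set S1 := S.filter (fun T => x a (T.2 a) * x b3 (T.2 b3) - x b (T.2 b) * x a3 (T.2 a3) ≠ 0)
    with hS1
  set S2 := S.filter (fun T => x a (T.2 a) * x b3 (T.2 b3) - x b (T.2 b) * x a3 (T.2 a3) = 0 ∧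
    x a (T.2 a) ≠ 0) with hS2
  set S3 := S.filter (fun T => x a (T.2 a) * x b3 (T.2 b3) - x b (T.2 b) * x a3 (T.2 a3) = 0 ∧
    x a3 (T.2 a3) ≠ 0) with hS3
  set S4 := S.filter (fun T => x a (T.2 a) = 0 ∧ x a3 (T.2 a3) = 0) with hS4
  have hsub : S ⊆ (S1 ∪ S2) ∪ (S3 ∪ S4) := by
    intro T hT
    by_cases h1 : x a (T.2 a) * x b3 (T.2 b3) - x b (T.2 b) * x a3 (T.2 a3) = 0
    · by_cases h2 : x a (T.2 a) = 0
      · by_cases h3 : x a3 (T.2 a3) = 0
        · exact Finset.mem_union_right _ (Finset.mem_union_right _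
            (Finset.mem_filter.2 ⟨hT, h2, h3⟩))
        · exact Finset.mem_union_right _ (Finset.mem_union_left _
            (Finset.mem_filter.2 ⟨hT, h1, h3⟩))
      · exact Finset.mem_union_left _ (Finset.mem_union_right _
          (Finset.mem_filter.2 ⟨hT, h1, h2⟩))
    · exact Finset.mem_union_left _ (Finset.mem_union_left _ (Finset.mem_filter.2 ⟨hT, h1⟩))
  have hSm : ∀ T ∈ S, T ∈ Box m := fun T hT => (Finset.mem_filter.1 hT).1
  have hSe : ∀ T ∈ S,
      ca * (X T.1.1 * x a3 (T.2 a3) - x a (T.2 a) * Y T.1.2) = Va (fun k => x k (T.2 k)) ∧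
      cb * (X T.1.1 * x b3 (T.2 b3) - x b (T.2 b) * Y T.1.2) = Vb (fun k => x k (T.2 k)) :=
    fun T hT => (Finset.mem_filter.1 hT).2
  have b1 : S1.card ≤ m ^ 6 * h ^ 2 := by
    apply svt_fib S1 (fun T => T.2) (Fintype.piFinset fun _ : Fin 6 => Finset.range m)
      (fun T => T.1.1) (fun T => T.1.2) X Y m h
    · rw [Fintype.card_piFinset]; simp
    · intro T hT
      have := svt_mem (hSm T (Finset.mem_filter.1 hT).1)
      exact Fintype.mem_piFinset.2 fun k => Finset.mem_range.2 (this.2.2 k)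
    · intro T hT
      have := svt_mem (hSm T (Finset.mem_filter.1 hT).1)
      exact ⟨this.1, this.2.1⟩
    · intro T _ T' _ h1 h2 h3
      exact Prod.ext (Prod.ext h2 h3) h1
    · intro T hT T' hT' heq
      have hp := (Finset.mem_filter.1 hT).2
      obtain ⟨e1, e2⟩ := hSe T (Finset.mem_filter.1 hT).1
      obtain ⟨e3, e4⟩ := hSe T' (Finset.mem_filter.1 hT').1
      have heq' : T.2 = T'.2 := heq
      rw [← heq'] at e3 e4
      have f1 := mul_left_cancel₀ hca (e1.trans e3.symm)
      have f2 := mul_left_cancel₀ hcb (e2.trans e4.symm)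
      constructor
      · have : (X T.1.1 - X T'.1.1) *
            (x a (T.2 a) * x b3 (T.2 b3) - x b (T.2 b) * x a3 (T.2 a3)) = 0 := by
          linear_combination (x a (T.2 a)) * f2 - (x b (T.2 b)) * f1
        exact sub_eq_zero.1 ((mul_eq_zero.1 this).resolve_right hp)
      · have : (Y T.1.2 - Y T'.1.2) *
            (x a (T.2 a) * x b3 (T.2 b3) - x b (T.2 b) * x a3 (T.2 a3)) = 0 := by
          linear_combination (x a3 (T.2 a3)) * f2 - (x b3 (T.2 b3)) * f1
        exact sub_eq_zero.1 ((mul_eq_zero.1 this).resolve_right hp)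
    · exact hX
    · exact hY
  have b2 : S2.card ≤ m ^ 6 * h ^ 2 := by
    apply svt_fib S2 (fun T => (T.1.1, Function.update T.2 b3 0))
      (Finset.range m ×ˢ
        Fintype.piFinset (fun k : Fin 6 => if k = b3 then ({0} : Finset ℕ) else Finset.range m))
      (fun T => T.2 b3) (fun T => T.1.2) (x b3) Y m h
    · rw [Finset.card_product, svt_card1, Finset.card_range]
      apply le_of_eq; ring
    · intro T hT
      have := svt_mem (hSm T (Finset.mem_filter.1 hT).1)
      refine Finset.mem_product.2 ⟨Finset.mem_range.2 this.1, Fintype.mem_piFinset.2 fun k => ?_⟩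
      by_cases hk : k = b3
      · subst hk
        simp
      · simp [hk, this.2.2 k]
    · intro T hT
      have := svt_mem (hSm T (Finset.mem_filter.1 hT).1)
      exact ⟨this.2.2 _, this.2.1⟩
    · intro T _ T' _ h1 h2 h3
      have h4 := Prod.mk.inj h1
      have h5 := svt_upd h4.2
      refine Prod.ext (Prod.ext h4.1 h3) (funext fun k => ?_)
      by_cases hk : k = b3
      · rw [hk]; exact h2
      · exact h5 k hk
    · intro T hT T' hT' heq
      have hp := (Finset.mem_filter.1 hT).2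
      have hp' := (Finset.mem_filter.1 hT').2
      obtain ⟨e1, -⟩ := hSe T (Finset.mem_filter.1 hT).1
      obtain ⟨e3, -⟩ := hSe T' (Finset.mem_filter.1 hT').1
      have h4 := Prod.mk.inj heq
      have h5 := svt_upd h4.2
      have ga := h5 a hb3.symm
      have ga3 := h5 a3 hb4.symm
      have gb := h5 b hbb
      have g1 : x b3 (T.2 b3) = x b3 (T'.2 b3) := by
        have q1 := hp.1
        have q2 := hp'.1
        rw [← ga, ← ga3, ← gb] at q2
        have : x a (T.2 a) * x b3 (T.2 b3) = x a (T.2 a) * x b3 (T'.2 b3) := by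
          linear_combination q1 - q2
        exact mul_left_cancel₀ hp.2 this
      refine ⟨g1, ?_⟩
      have hz : (fun k => x k (T.2 k)) = (fun k => x k (T'.2 k)) := by
        funext k
        by_cases hk : k = b3
        · rw [hk]; exact g1
        · rw [h5 k hk]
      rw [← hz, ← ga, ← ga3, ← h4.1] at e3
      have f1 := mul_left_cancel₀ hca (e1.trans e3.symm)
      have : x a (T.2 a) * Y T.1.2 = x a (T.2 a) * Y T'.1.2 := by
        linear_combination -f1
      exact mul_left_cancel₀ hp.2 this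
    · exact hx b3
    · exact hY
  have b3' : S3.card ≤ m ^ 6 * h ^ 2 := by
    apply svt_fib S3 (fun T => (T.1.2, Function.update T.2 b 0))
      (Finset.range m ×ˢ
        Fintype.piFinset (fun k : Fin 6 => if k = b then ({0} : Finset ℕ) else Finset.range m))
      (fun T => T.2 b) (fun T => T.1.1) (x b) X m h
    · rw [Finset.card_product, svt_card1, Finset.card_range]
      apply le_of_eq; ring
    · intro T hT
      have := svt_mem (hSm T (Finset.mem_filter.1 hT).1)
      refine Finset.mem_product.2 ⟨Finset.mem_range.2 this.2.1, Fintype.mem_piFinset.2 fun k => ?_⟩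
      by_cases hk : k = b
      · subst hk
        simp
      · simp [hk, this.2.2 k]
    · intro T hT
      have := svt_mem (hSm T (Finset.mem_filter.1 hT).1)
      exact ⟨this.2.2 _, this.1⟩
    · intro T _ T' _ h1 h2 h3
      have h4 := Prod.mk.inj h1
      have h5 := svt_upd h4.2
      refine Prod.ext (Prod.ext h3 h4.1) (funext fun k => ?_)
      by_cases hk : k = b
      · rw [hk]; exact h2
      · exact h5 k hk
    · intro T hT T' hT' heq
      have hp := (Finset.mem_filter.1 hT).2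
      have hp' := (Finset.mem_filter.1 hT').2
      obtain ⟨e1, -⟩ := hSe T (Finset.mem_filter.1 hT).1
      obtain ⟨e3, -⟩ := hSe T' (Finset.mem_filter.1 hT').1
      have h4 := Prod.mk.inj heq
      have h5 := svt_upd h4.2
      have ga := h5 a hb1.symm
      have ga3 := h5 a3 hb2.symm
      have gb := h5 b3 hbb.symm
      have g1 : x b (T.2 b) = x b (T'.2 b) := by
        have q1 := hp.1
        have q2 := hp'.1
        rw [← ga, ← ga3, ← gb] at q2
        have : x a3 (T.2 a3) * x b (T.2 b) = x a3 (T.2 a3) * x b (T'.2 b) := by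
          linear_combination q2 - q1
        exact mul_left_cancel₀ hp.2 this
      refine ⟨g1, ?_⟩
      have hz : (fun k => x k (T.2 k)) = (fun k => x k (T'.2 k)) := by
        funext k
        by_cases hk : k = b
        · rw [hk]; exact g1
        · rw [h5 k hk]
      rw [← hz, ← ga, ← ga3, ← h4.1] at e3
      have f1 := mul_left_cancel₀ hca (e1.trans e3.symm)
      have : x a3 (T.2 a3) * X T.1.1 = x a3 (T.2 a3) * X T'.1.1 := by
        linear_combination f1
      exact mul_left_cancel₀ hp.2 this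
    · exact hx b
    · exact hX
  have b4 : S4.card ≤ m ^ 6 * h ^ 2 := by
    apply svt_fib S4 (fun T => (T.1, Function.update (Function.update T.2 a 0) a3 0))
      ((Finset.range m ×ˢ Finset.range m) ×ˢ
        Fintype.piFinset (fun k : Fin 6 => if k = a ∨ k = a3 then ({0} : Finset ℕ)
          else Finset.range m))
      (fun T => T.2 a) (fun T => T.2 a3) (x a) (x a3) m h
    · rw [Finset.card_product, Finset.card_product, svt_card2 m a a3 haa, Finset.card_range]
      apply le_of_eq; ring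
    · intro T hT
      have := svt_mem (hSm T (Finset.mem_filter.1 hT).1)
      refine Finset.mem_product.2 ⟨Finset.mem_product.2 ⟨Finset.mem_range.2 this.1,
        Finset.mem_range.2 this.2.1⟩, Fintype.mem_piFinset.2 fun k => ?_⟩
      by_cases hk : k = a3
      · subst hk
        simp
      · by_cases hk' : k = a
        · subst hk'
          simp [Function.update_of_ne hk]
        · have hn : ¬ (k = a ∨ k = a3) := fun h => h.elim hk' hk
          rw [if_neg hn]
          show Function.update (Function.update T.2 a 0) a3 0 k ∈ Finset.range m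
          rw [Function.update_of_ne hk, Function.update_of_ne hk']
          exact Finset.mem_range.2 (this.2.2 k)
    · intro T hT
      have := svt_mem (hSm T (Finset.mem_filter.1 hT).1)
      exact ⟨this.2.2 _, this.2.2 _⟩
    · intro T _ T' _ h1 h2 h3
      have h4 := Prod.mk.inj h1
      have h5 := svt_upd h4.2
      refine Prod.ext h4.1 (funext fun k => ?_)
      by_cases hk : k = a3
      · rw [hk]; exact h3
      · by_cases hk' : k = a
        · rw [hk']; exact h2
        · have h6 := h5 k hk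
          rwa [Function.update_of_ne hk', Function.update_of_ne hk'] at h6
    · intro T hT T' hT' _
      have hp := (Finset.mem_filter.1 hT).2
      have hp' := (Finset.mem_filter.1 hT').2
      exact ⟨hp.1.trans hp'.1.symm, hp.2.trans hp'.2.symm⟩
    · exact hx a
    · exact hx a3
  have hle := Finset.card_le_card hsub
  have u1 := Finset.card_union_le (S1 ∪ S2) (S3 ∪ S4)
  have u2 := Finset.card_union_le S1 S2
  have u3 := Finset.card_union_le S3 S4
  have : 4 * m ^ 6 * h ^ 2 = 4 * (m ^ 6 * h ^ 2) := by ring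
  rw [this]
  omega

theorem st_SVT : ST_SVT := by
  classical
  intro F _ h30 m h X Y x _ hX hY hx i j ε δ hij _ _
  have h4 : (4 : F) ≠ 0 := by
    intro h4
    apply h30
    have h2 : (2 : F) = 0 := by
      have : (2 : F) * 2 = 0 := by linear_combination h4
      exact (mul_self_eq_zero.1 this)
    linear_combination 15 * h2
  have c0 : ∀ w : (F × F) × (Fin 6 → F), U w 0 = 1 * (w.1.1 * w.2 3 - w.2 0 * w.1.2) := by
    intro w; rw [one_mul]; rfl
  have c1 : ∀ w : (F × F) × (Fin 6 → F), U w 1 = 1 * (w.1.1 * w.2 4 - w.2 1 * w.1.2) := by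
    intro w; rw [one_mul]; rfl
  have c2 : ∀ w : (F × F) × (Fin 6 → F), U w 2 = 4 * (w.1.1 * w.2 5 - w.2 2 * w.1.2) := by
    intro w; rfl
  have key : ∀ (p q : Fin 3), p ≠ q →
      ∃ (a a3 b b3 : Fin 6) (ca cb : F), a ≠ a3 ∧ b ≠ a ∧ b ≠ a3 ∧ b3 ≠ a ∧ b3 ≠ a3 ∧ b ≠ b3 ∧
        ca ≠ 0 ∧ cb ≠ 0 ∧ (∀ w : (F × F) × (Fin 6 → F),
          U w p = ca * (w.1.1 * w.2 a3 - w.2 a * w.1.2)) ∧
        (∀ w : (F × F) × (Fin 6 → F), U w q = cb * (w.1.1 * w.2 b3 - w.2 b * w.1.2)) := by
    intro p q hpq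
    have hs : ∀ r : Fin 3, ∃ cr : F, cr ≠ 0 ∧ ∀ w : (F × F) × (Fin 6 → F),
        U w r = cr * (w.1.1 * w.2 ((![3, 4, 5] : Fin 3 → Fin 6) r) -
          w.2 ((![0, 1, 2] : Fin 3 → Fin 6) r) * w.1.2) := by
      intro r
      fin_cases r
      · exact ⟨1, one_ne_zero, c0⟩
      · exact ⟨1, one_ne_zero, c1⟩
      · exact ⟨4, h4, c2⟩
    obtain ⟨ca, hca, hwa⟩ := hs p
    obtain ⟨cb, hcb, hwb⟩ := hs q
    have hd : ∀ p q : Fin 3, p ≠ q →
        ((![0, 1, 2] : Fin 3 → Fin 6) p ≠ (![3, 4, 5] : Fin 3 → Fin 6) p ∧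
        (![0, 1, 2] : Fin 3 → Fin 6) q ≠ (![0, 1, 2] : Fin 3 → Fin 6) p ∧
        (![0, 1, 2] : Fin 3 → Fin 6) q ≠ (![3, 4, 5] : Fin 3 → Fin 6) p ∧
        (![3, 4, 5] : Fin 3 → Fin 6) q ≠ (![0, 1, 2] : Fin 3 → Fin 6) p ∧
        (![3, 4, 5] : Fin 3 → Fin 6) q ≠ (![3, 4, 5] : Fin 3 → Fin 6) p ∧
        (![0, 1, 2] : Fin 3 → Fin 6) q ≠ (![3, 4, 5] : Fin 3 → Fin 6) q) := by decide
    obtain ⟨d1, d2, d3, d4, d5, d6⟩ := hd p q hpq
    exact ⟨_, _, _, _, ca, cb, d1, d2, d3, d4, d5, d6, hca, hcb, hwa, hwb⟩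
  obtain ⟨a, a3, b, b3, ca, cb, d1, d2, d3, d4, d5, d6, hca, hcb, hwa, hwb⟩ := key i j hij
  have hc := svt_core m h X Y x hX hY hx a a3 b b3 d1 d2 d3 d4 d5 d6 ca cb hca hcb
    (fun z => ε * V z i) (fun z => δ * V z j)
  refine le_trans (le_of_eq ?_) hc
  apply congrArg Finset.card
  ext T
  rw [Finset.mem_filter, Finset.mem_filter]
  rw [hwa ((X T.1.1, Y T.1.2), fun k => x k (T.2 k)),
    hwb ((X T.1.1, Y T.1.2), fun k => x k (T.2 k))]

end Pool.Helper67.R6
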